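import Pool.Agent.V11151.HM.Comb

/-!
# The orchard crossing number of planar graphs is cubic in the worst case

For `n ≥ 2`: `(n-2)(n-3)(n-5)/4 ≤ M(n) ≤ (3n-5)(n-2)(n-3)/6`.

* `OCN(K_{2,n-2}) ≥ (n-2)(n-3)(n-5)/4`, so `M(n) ≥ (n-2)(n-3)(n-5)/4` for `n ≥ 2`.  For a hub `a`
  and leaves `q, u, v` in this angular order inside a half-plane at `a`, the line `qv` separates
  `a` from `u` or the line `qu` separates `a` from `v`; the number of such triples is at least
  `m (m-1) (m-3) / 8` for `m` leaves.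
* `OCN(G) ≤ e(G) (n-2) (n-3) / 6` for every graph: place the vertices on a parabola in random
  order; two disjoint pairs interleave with probability `1/3`.
-/

namespace Pool.Agent.Results.MP_00ece3_co.CubicGrowth

open Finset

/-- Orientation determinant of three points of the plane (zero iff collinear). -/
def cr (p q r : ℝ × ℝ) : ℝ := (q.1 - p.1) * (r.2 - p.2) - (q.2 - p.2) * (r.1 - p.1)

/-- An injective map onto points with no three collinear. -/
def Placement {n : ℕ} (P : Fin n → ℝ × ℝ) : Prop :=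
  Function.Injective P ∧ ∀ i j k : Fin n, i ≠ j → i ≠ k → j ≠ k → cr (P i) (P j) (P k) ≠ 0

open Classical in
/-- The number of lines spanned by two placed points other than `p, q` separating `p` and `q`. -/
noncomputable def nsep {n : ℕ} (P : Fin n → ℝ × ℝ) (p q : Fin n) : ℕ :=
  ((univ : Finset (Fin n × Fin n)).filter fun e => e.1 < e.2 ∧ e.1 ≠ p ∧ e.1 ≠ q ∧
    e.2 ≠ p ∧ e.2 ≠ q ∧ cr (P e.1) (P e.2) (P p) * cr (P e.1) (P e.2) (P q) < 0).card

open Classical in
/-- The sum of `nsep` over the edges of `G`. -/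
noncomputable def cost {n : ℕ} (G : SimpleGraph (Fin n)) (P : Fin n → ℝ × ℝ) : ℕ :=
  ∑ e ∈ (univ : Finset (Fin n × Fin n)).filter (fun e => e.1 < e.2 ∧ G.Adj e.1 e.2),
    nsep P e.1 e.2

/-- The orchard crossing number. -/
noncomputable def OCN {n : ℕ} (G : SimpleGraph (Fin n)) : ℕ :=
  sInf {c | ∃ P : Fin n → ℝ × ℝ, Placement P ∧ c = cost G P}

/-- `G` has a plane straight-line drawing (by Fary's theorem: `G` is planar). -/
def Planar {n : ℕ} (G : SimpleGraph (Fin n)) : Prop :=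
  ∃ f : Fin n → ℝ × ℝ, Function.Injective f ∧
    (∀ u v w, G.Adj u v → f w ∈ segment ℝ (f u) (f v) → w = u ∨ w = v) ∧
    (∀ u v x y, G.Adj u v → G.Adj x y → s(u, v) ≠ s(x, y) →
      ∀ z, z ∈ segment ℝ (f u) (f v) → z ∈ segment ℝ (f x) (f y) →
        ∃ w, (w = u ∨ w = v) ∧ (w = x ∨ w = y) ∧ z = f w)

/-- The largest orchard crossing number of a planar graph on `n` vertices. -/
noncomputable def M (n : ℕ) : ℕ := sSup {c | ∃ G : SimpleGraph (Fin n), Planar G ∧ c = OCN G}

/-! ### tournaments -/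

lemma tour {V : Type*} [DecidableEq V] (H : Finset V) (R S : V → V → Prop)
    [DecidableRel R] [DecidableRel S]
    (hR : ∀ u ∈ H, ∀ v ∈ H, u ≠ v → (R u v ↔ ¬ R v u))
    (hS : ∀ u v, S u v ↔ S v u) :
    2 * (H.offDiag.filter fun e => R e.1 e.2 ∧ S e.1 e.2).card =
      (H.offDiag.filter fun e => S e.1 e.2).card := by
  have h1 : (H.offDiag.filter fun e => S e.1 e.2) =
      (H.offDiag.filter fun e => R e.1 e.2 ∧ S e.1 e.2) ∪
      (H.offDiag.filter fun e => ¬ R e.1 e.2 ∧ S e.1 e.2) := by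
    ext e
    simp only [mem_filter, mem_union]
    tauto
  have h2 : Disjoint (H.offDiag.filter fun e => R e.1 e.2 ∧ S e.1 e.2)
      (H.offDiag.filter fun e => ¬ R e.1 e.2 ∧ S e.1 e.2) := by
    rw [Finset.disjoint_left]
    intro e he he'
    simp only [mem_filter] at he he'
    exact he'.2.1 he.2.1
  have h3 : (H.offDiag.filter fun e => R e.1 e.2 ∧ S e.1 e.2).card =
      (H.offDiag.filter fun e => ¬ R e.1 e.2 ∧ S e.1 e.2).card := by
    apply Finset.card_bij (fun e _ => (e.2, e.1))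
    · rintro ⟨a, b⟩ he
      simp only [mem_filter, mem_offDiag] at he ⊢
      obtain ⟨⟨ha, hb, hne⟩, hr, hs⟩ := he
      exact ⟨⟨hb, ha, hne.symm⟩, (hR a ha b hb hne).1 hr, (hS a b).1 hs⟩
    · rintro ⟨a, b⟩ _ ⟨c, d⟩ _ h
      simp only [Prod.mk.injEq] at h ⊢
      exact ⟨h.2, h.1⟩
    · rintro ⟨a, b⟩ he
      simp only [mem_filter, mem_offDiag] at he
      obtain ⟨⟨ha, hb, hne⟩, hr, hs⟩ := he
      refine ⟨(b, a), ?_, rfl⟩
      simp only [mem_filter, mem_offDiag]
      exact ⟨⟨hb, ha, hne.symm⟩, (hR b hb a ha hne.symm).2 hr, (hS a b).1 hs⟩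
  rw [h1, Finset.card_union_of_disjoint h2, ← h3]
  ring

lemma cr_anti (a b c : ℝ × ℝ) : cr a b c = - cr a c b := by unfold cr; ring
lemma cr_cyc (a b c : ℝ × ℝ) : cr a b c = cr b c a := by unfold cr; ring
lemma cr_swap (a b c : ℝ × ℝ) : cr b a c = - cr a b c := by unfold cr; ring

open Classical in
/-- Counting the separating lines with the order around `p`. -/
lemma nsep_eq {n : ℕ} (P : Fin n → ℝ × ℝ) (hP : Placement P) (p q : Fin n) :
    nsep P p q = ((univ : Finset (Fin n × Fin n)).filter fun e => 0 < cr (P p) (P e.1) (P e.2) ∧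
      e.1 ≠ p ∧ e.1 ≠ q ∧ e.2 ≠ p ∧ e.2 ≠ q ∧
      cr (P e.1) (P e.2) (P p) * cr (P e.1) (P e.2) (P q) < 0).card := by
  set H : Finset (Fin n) := univ.filter (fun x => x ≠ p ∧ x ≠ q) with hH
  set S : Fin n → Fin n → Prop := fun x y => cr (P x) (P y) (P p) * cr (P x) (P y) (P q) < 0
    with hS
  have hsym : ∀ u v, S u v ↔ S v u := by
    intro u v
    simp only [hS]
    rw [cr_swap (P v) (P u) (P p), cr_swap (P v) (P u) (P q)]
    simp
  have t1 := tour H (fun x y => x < y) S (by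
    intro u _ v _ huv
    constructor
    · intro h; exact not_lt.mpr h.le
    · intro h; exact lt_of_le_of_ne (not_lt.mp h) huv) hsym
  have t2 := tour H (fun x y => 0 < cr (P p) (P x) (P y)) S (by
    intro u hu v hv huv
    simp only [hH, mem_filter, mem_univ, true_and] at hu hv
    have hne := hP.2 p u v (Ne.symm hu.1) (Ne.symm hv.1) huv
    rw [cr_anti (P p) (P v) (P u)]
    constructor
    · intro h; linarith
    · intro h
      rcases lt_or_gt_of_ne hne with h' | h'
      · exfalso; apply h; linarith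
      · exact h') hsym
  have e1 : nsep P p q = (H.offDiag.filter fun e => e.1 < e.2 ∧ S e.1 e.2).card := by
    unfold nsep
    congr 1
    ext e
    simp only [hH, mem_filter, mem_univ, true_and, mem_offDiag, hS]
    constructor
    · rintro ⟨h1, h2, h3, h4, h5, h6⟩
      exact ⟨⟨⟨h2, h3⟩, ⟨h4, h5⟩, h1.ne⟩, h1, h6⟩
    · rintro ⟨⟨⟨h2, h3⟩, ⟨h4, h5⟩, _⟩, h1, h6⟩
      exact ⟨h1, h2, h3, h4, h5, h6⟩
  have e2 : ((univ : Finset (Fin n × Fin n)).filter fun e => 0 < cr (P p) (P e.1) (P e.2) ∧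
      e.1 ≠ p ∧ e.1 ≠ q ∧ e.2 ≠ p ∧ e.2 ≠ q ∧
      cr (P e.1) (P e.2) (P p) * cr (P e.1) (P e.2) (P q) < 0).card =
      (H.offDiag.filter fun e => 0 < cr (P p) (P e.1) (P e.2) ∧ S e.1 e.2).card := by
    congr 1
    ext e
    simp only [hH, mem_filter, mem_univ, true_and, mem_offDiag, hS]
    constructor
    · rintro ⟨h1, h2, h3, h4, h5, h6⟩
      refine ⟨⟨⟨h2, h3⟩, ⟨h4, h5⟩, ?_⟩, h1, h6⟩
      intro h
      rw [h] at h1
      unfold cr at h1
      nlinarith
    · rintro ⟨⟨⟨h2, h3⟩, ⟨h4, h5⟩, _⟩, h1, h6⟩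
      exact ⟨h1, h2, h3, h4, h5, h6⟩
  rw [e1, e2]
  omega

open Classical in
/-- The star cost. -/
lemma star {n : ℕ} (P : Fin n → ℝ × ℝ) (hP : Placement P) (a : Fin n) (L : Finset (Fin n))
    (ha : a ∉ L) :
    (L.card : ℤ) * (L.card - 1) * (L.card - 3) ≤ 8 * ∑ w ∈ L, (nsep P a w : ℤ) := by
  -- the relation
  set R : Fin n → Fin n → Prop := fun x y => 0 < cr (P a) (P x) (P y) with hRdef
  have hRself : ∀ x, ¬ R x x := by
    intro x h
    simp only [hRdef] at h
    unfold cr at h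
    nlinarith
  have hR : ∀ H : Finset (Fin n), H ⊆ L → ∀ u ∈ H, ∀ v ∈ H, u ≠ v → (R u v ↔ ¬ R v u) := by
    intro H hH u hu v hv huv
    have hua : a ≠ u := by rintro rfl; exact ha (hH hu)
    have hva : a ≠ v := by rintro rfl; exact ha (hH hv)
    have hne := hP.2 a u v hua hva huv
    simp only [hRdef]
    rw [cr_anti (P a) (P v) (P u)]
    constructor
    · intro h; linarith
    · intro h
      rcases lt_or_gt_of_ne hne with h' | h'
      · exfalso; apply h; linarith
      · exact h'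
  have hcount : ∀ H : Finset (Fin n), H ⊆ L →
      2 * (((H ×ˢ H).filter fun e => R e.1 e.2).card : ℤ) = (H.card : ℤ) * (H.card - 1) := by
    intro H hH
    have t := tour H R (fun _ _ => True) (hR H hH) (by simp)
    have e1 : ((H ×ˢ H).filter fun e => R e.1 e.2) =
        (H.offDiag.filter fun e => R e.1 e.2 ∧ True) := by
      ext e
      simp only [mem_filter, mem_product, mem_offDiag, and_true]
      constructor
      · rintro ⟨⟨h1, h2⟩, h3⟩
        refine ⟨⟨h1, h2, ?_⟩, h3⟩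
        intro h
        rw [h] at h3
        exact hRself _ h3
      · rintro ⟨⟨h1, h2, _⟩, h3⟩
        exact ⟨⟨h1, h2⟩, h3⟩
    rw [e1]
    have e2 : (H.offDiag.filter fun _ => True).card = H.card * H.card - H.card := by
      rw [Finset.filter_true, Finset.offDiag_card]
    rw [e2] at t
    have h3 : H.card ≤ H.card * H.card := Nat.le_mul_self _
    have t' : ((2 * (H.offDiag.filter fun e => R e.1 e.2 ∧ True).card : ℕ) : ℤ) =
      ((H.card * H.card - H.card : ℕ) : ℤ) := by rw [t]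
    rw [Nat.cast_sub h3] at t'
    push_cast at t'
    linarith
  -- the transitive triples
  set A : Finset (Fin n × Fin n × Fin n) := (L ×ˢ L ×ˢ L).filter
    (fun t => R t.1 t.2.1 ∧ R t.2.1 t.2.2 ∧ R t.1 t.2.2) with hA
  set hh : Fin n → Finset (Fin n) := fun q => L.filter (fun u => R q u) with hhh
  have hA1 : (A.card : ℤ) = ∑ q ∈ L, ((((hh q) ×ˢ (hh q)).filter fun e => R e.1 e.2).card : ℤ) := by
    have : A.card = ∑ q ∈ L, (((hh q) ×ˢ (hh q)).filter fun e => R e.1 e.2).card := by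
      rw [Finset.card_eq_sum_card_fiberwise (f := fun t => t.1) (t := L)]
      · apply Finset.sum_congr rfl
        intro q hq
        apply Finset.card_bij (fun t _ => t.2)
        · rintro ⟨x, u, v⟩ ht
          simp only [hA, hhh, mem_filter, mem_product] at ht ⊢
          obtain ⟨⟨⟨h1, h2, h3⟩, h4, h5, h6⟩, h7⟩ := ht
          subst h7
          exact ⟨⟨⟨h2, h4⟩, ⟨h3, h6⟩⟩, h5⟩
        · rintro ⟨x, u, v⟩ ht ⟨x', u', v'⟩ ht' h
          simp only [hA, mem_filter, mem_product] at ht ht'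
          simp only [Prod.mk.injEq] at h ⊢
          exact ⟨ht.2.trans ht'.2.symm, h.1, h.2⟩
        · rintro ⟨u, v⟩ ht
          simp only [hhh, mem_filter, mem_product] at ht
          refine ⟨(q, u, v), ?_, rfl⟩
          simp only [hA, mem_filter, mem_product]
          exact ⟨⟨⟨hq, ht.1.1.1, ht.1.2.1⟩, ht.1.1.2, ht.2, ht.1.2.2⟩, trivial⟩
      · intro t ht
        simp only [hA, coe_filter, Set.mem_ofPred_eq, mem_product] at ht
        exact ht.1.1
    rw [this]
    push_cast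
    rfl
  have hA2 : 2 * (A.card : ℤ) = ∑ q ∈ L, ((hh q).card : ℤ) * ((hh q).card - 1) := by
    rw [hA1, Finset.mul_sum]
    apply Finset.sum_congr rfl
    intro q _
    exact hcount (hh q) (Finset.filter_subset _ _)
  have hsum : 2 * ∑ q ∈ L, ((hh q).card : ℤ) = (L.card : ℤ) * (L.card - 1) := by
    rw [← hcount L (Finset.Subset.refl _)]
    congr 1
    have : ((L ×ˢ L).filter fun e => R e.1 e.2).card = ∑ q ∈ L, (hh q).card := by
      rw [Finset.card_eq_sum_card_fiberwise (f := fun t => t.1) (t := L)]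
      · apply Finset.sum_congr rfl
        intro q hq
        apply Finset.card_bij (fun t _ => t.2)
        · rintro ⟨x, u⟩ ht
          simp only [hhh, mem_filter, mem_product] at ht ⊢
          obtain ⟨⟨⟨h1, h2⟩, h3⟩, h7⟩ := ht
          subst h7
          exact ⟨h2, h3⟩
        · rintro ⟨x, u⟩ ht ⟨x', u'⟩ ht' h
          simp only [mem_filter, mem_product] at ht ht'
          simp only [Prod.mk.injEq] at h ⊢
          exact ⟨ht.2.trans ht'.2.symm, h⟩
        · intro u ht
          simp only [hhh, mem_filter] at ht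
          refine ⟨(q, u), ?_, rfl⟩
          simp only [mem_filter, mem_product]
          exact ⟨⟨⟨hq, ht.1⟩, ht.2⟩, trivial⟩
      · intro t ht
        simp only [coe_filter, Set.mem_ofPred_eq, mem_product] at ht
        exact ht.1.1
    rw [this]
    push_cast
    rfl
  -- the lower bound for A
  have hA3 : (L.card : ℤ) * (L.card - 1) * (L.card - 3) ≤ 8 * (A.card : ℤ) := by
    have h4 : ∑ q ∈ L, (4 * ((L.card : ℤ) - 1) * ((hh q).card : ℤ) - ((L.card : ℤ) - 1) ^ 2
        - 4 * ((hh q).card : ℤ)) ≤ ∑ q ∈ L, 4 * (((hh q).card : ℤ) * ((hh q).card - 1)) := by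
      apply Finset.sum_le_sum
      intro q _
      nlinarith [sq_nonneg (2 * ((hh q).card : ℤ) - ((L.card : ℤ) - 1))]
    rw [← Finset.mul_sum, ← hA2] at h4
    rw [Finset.sum_sub_distrib, Finset.sum_sub_distrib, ← Finset.mul_sum, ← Finset.mul_sum,
      Finset.sum_const] at h4
    simp only [nsmul_eq_mul] at h4
    nlinarith [h4, hsum]
  -- the injection
  set B : Finset (Fin n × Fin n × Fin n) := (L ×ˢ (univ : Finset (Fin n × Fin n))).filter
    (fun t => 0 < cr (P a) (P t.2.1) (P t.2.2) ∧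
      t.2.1 ≠ a ∧ t.2.1 ≠ t.1 ∧ t.2.2 ≠ a ∧ t.2.2 ≠ t.1 ∧
      cr (P t.2.1) (P t.2.2) (P a) * cr (P t.2.1) (P t.2.2) (P t.1) < 0) with hB
  have hB1 : (B.card : ℤ) = ∑ w ∈ L, (nsep P a w : ℤ) := by
    have : B.card = ∑ w ∈ L, nsep P a w := by
      rw [Finset.card_eq_sum_card_fiberwise (f := fun t => t.1) (t := L)]
      · apply Finset.sum_congr rfl
        intro w hw
        rw [nsep_eq P hP a w]
        apply Finset.card_bij (fun t _ => t.2)
        · rintro ⟨x, u, v⟩ ht
          simp only [hB, mem_filter, mem_product, mem_univ, true_and, and_true] at ht ⊢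
          obtain ⟨⟨h1, h2⟩, h7⟩ := ht
          subst h7
          exact h2
        · rintro ⟨x, u, v⟩ ht ⟨x', u', v'⟩ ht' h
          simp only [hB, mem_filter, mem_product] at ht ht'
          simp only [Prod.mk.injEq] at h ⊢
          exact ⟨ht.2.trans ht'.2.symm, h.1, h.2⟩
        · rintro ⟨u, v⟩ ht
          simp only [mem_filter, mem_univ, true_and] at ht
          refine ⟨(w, u, v), ?_, rfl⟩
          simp only [hB, mem_filter, mem_product, mem_univ, true_and, and_true]
          exact ⟨hw, ht⟩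
      · intro t ht
        simp only [hB, coe_filter, Set.mem_ofPred_eq, mem_product] at ht
        exact ht.1.1
    rw [this]
    push_cast
    rfl
  have hAB : A.card ≤ B.card := by
    apply Finset.card_le_card_of_injOn
      (fun t => if cr (P t.1) (P t.2.2) (P t.2.1) < 0 then (t.2.1, t.1, t.2.2)
        else (t.2.2, t.1, t.2.1))
    · rintro ⟨q, u, v⟩ ht
      have ht' : (q, u, v) ∈ A := ht
      simp only [hA, mem_filter, mem_product] at ht'
      obtain ⟨⟨hq, hu, hv⟩, h1, h2, h3⟩ := ht'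
      have hqa : q ≠ a := by rintro rfl; exact ha hq
      have hua : u ≠ a := by rintro rfl; exact ha hu
      have hva : v ≠ a := by rintro rfl; exact ha hv
      have hqu : q ≠ u := by rintro rfl; exact hRself _ h1
      have huv : u ≠ v := by rintro rfl; exact hRself _ h2
      have hqv : q ≠ v := by rintro rfl; exact hRself _ h3
      have hne := hP.2 q v u hqv hqu huv.symm
      simp only [hRdef] at h1 h2 h3
      show (if cr (P q) (P v) (P u) < 0 then (u, q, v) else (v, q, u)) ∈ B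
      split_ifs with hc
      · simp only [hB, mem_filter, mem_product, mem_univ, and_true]
        refine ⟨hu, h3, hqa, hqu, hva, huv.symm, ?_⟩
        have : 0 < cr (P q) (P v) (P a) := by rw [← cr_cyc]; exact h3
        exact mul_neg_of_pos_of_neg this hc
      · simp only [hB, mem_filter, mem_product, mem_univ, and_true]
        refine ⟨hv, h1, hqa, hqv, hua, huv, ?_⟩
        have h5 : 0 < cr (P q) (P v) (P u) := lt_of_le_of_ne (not_lt.mp hc) (Ne.symm hne)
        have : 0 < cr (P q) (P u) (P a) := by rw [← cr_cyc]; exact h1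
        have h6 : cr (P q) (P u) (P v) < 0 := by rw [cr_anti]; linarith
        exact mul_neg_of_pos_of_neg this h6
    · rintro ⟨q, u, v⟩ ht ⟨q', u', v'⟩ ht' h
      have ht1 : (q, u, v) ∈ A := ht
      have ht2 : (q', u', v') ∈ A := ht'
      simp only [hA, mem_filter, mem_product] at ht1 ht2
      obtain ⟨-, h1, h2, h3⟩ := ht1
      obtain ⟨-, h1', h2', h3'⟩ := ht2
      simp only [hRdef] at h1 h2 h3 h1' h2' h3'
      have h' : (if cr (P q) (P v) (P u) < 0 then (u, q, v) else (v, q, u)) =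
        (if cr (P q') (P v') (P u') < 0 then (u', q', v') else (v', q', u')) := h
      split_ifs at h' with c1 c2 c2
      · simp only [Prod.mk.injEq] at h' ⊢
        exact ⟨h'.2.1, h'.1, h'.2.2⟩
      · simp only [Prod.mk.injEq] at h'
        obtain ⟨e1, e2, e3⟩ := h'
        subst e1 e2 e3
        exfalso
        rw [cr_anti] at h2'
        linarith
      · simp only [Prod.mk.injEq] at h'
        obtain ⟨e1, e2, e3⟩ := h'
        subst e1 e2 e3
        exfalso
        rw [cr_anti] at h2'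
        linarith
      · simp only [Prod.mk.injEq] at h' ⊢
        exact ⟨h'.2.1, h'.2.2, h'.1⟩
  have hAB' : (A.card : ℤ) ≤ B.card := by exact_mod_cast hAB
  rw [← hB1]
  linarith

/-! ### the graph `K_{2, n-2}` -/

/-- `K_{2, n-2}`: the hubs are `0, 1`, the leaves all other vertices. -/
def K2 (n : ℕ) : SimpleGraph (Fin n) where
  Adj x y := (x.val < 2 ∧ 2 ≤ y.val) ∨ (y.val < 2 ∧ 2 ≤ x.val)
  symm := ⟨fun x y h => by tauto⟩
  loopless := ⟨fun x h => by omega⟩

lemma exists_placement (n : ℕ) : ∃ P : Fin n → ℝ × ℝ, Placement P := by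
  refine ⟨fun i => ((i.val : ℝ), (i.val : ℝ) ^ 2), ?_, ?_⟩
  · intro i j h
    simp only [Prod.mk.injEq, Nat.cast_inj] at h
    exact Fin.ext h.1
  · intro i j k hij hik hjk
    have h1 : ((j.val : ℝ) - i.val) ≠ 0 := by
      rw [sub_ne_zero]; intro h; exact hij (Fin.ext (by exact_mod_cast h.symm))
    have h2 : ((k.val : ℝ) - i.val) ≠ 0 := by
      rw [sub_ne_zero]; intro h; exact hik (Fin.ext (by exact_mod_cast h.symm))
    have h3 : ((k.val : ℝ) - j.val) ≠ 0 := by
      rw [sub_ne_zero]; intro h; exact hjk (Fin.ext (by exact_mod_cast h.symm))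
    have : cr ((i.val : ℝ), (i.val : ℝ) ^ 2) ((j.val : ℝ), (j.val : ℝ) ^ 2)
        ((k.val : ℝ), (k.val : ℝ) ^ 2) =
        ((j.val : ℝ) - i.val) * ((k.val : ℝ) - i.val) * ((k.val : ℝ) - j.val) := by
      unfold cr; ring
    show cr ((i.val : ℝ), (i.val : ℝ) ^ 2) ((j.val : ℝ), (j.val : ℝ) ^ 2)
        ((k.val : ℝ), (k.val : ℝ) ^ 2) ≠ 0
    rw [this]
    exact mul_ne_zero (mul_ne_zero h1 h2) h3

lemma cost_K2 {n : ℕ} (hn : 2 ≤ n) (P : Fin n → ℝ × ℝ) (hP : Placement P) :
    ((n : ℤ) - 2) * (n - 3) * (n - 5) ≤ 4 * (cost (K2 n) P : ℤ) := by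
  classical
  set a0 : Fin n := ⟨0, by omega⟩ with ha0
  set a1 : Fin n := ⟨1, by omega⟩ with ha1
  set L : Finset (Fin n) := univ.filter (fun x => 2 ≤ x.val) with hL
  have hcard : (L.card : ℤ) = n - 2 := by
    have h1 : L = univ \ {a0, a1} := by
      ext x
      simp only [hL, mem_filter, mem_univ, true_and, mem_sdiff, mem_insert, mem_singleton, ha0,
        ha1, Fin.ext_iff]
      omega
    have h01 : a0 ≠ a1 := by simp [ha0, ha1, Fin.ext_iff]
    rw [h1, Finset.card_sdiff_of_subset (Finset.subset_univ _), Finset.card_univ,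
      Fintype.card_fin, Finset.card_pair h01]
    omega
  have hge : (∑ w ∈ L, nsep P a0 w) + (∑ w ∈ L, nsep P a1 w) ≤ cost (K2 n) P := by
    have h01 : a0 ≠ a1 := by simp [ha0, ha1, Fin.ext_iff]
    have h2 : (∑ w ∈ L, nsep P a0 w) + (∑ w ∈ L, nsep P a1 w) =
        ∑ e ∈ ({a0, a1} : Finset (Fin n)) ×ˢ L, nsep P e.1 e.2 := by
      rw [Finset.sum_product, Finset.sum_pair h01]
    rw [h2]
    unfold cost
    apply Finset.sum_le_sum_of_subset
    rintro ⟨x, y⟩ h
    simp only [mem_product, mem_insert, mem_singleton, hL, mem_filter, mem_univ, true_and,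
      ha0, ha1, Fin.ext_iff] at h
    simp only [mem_filter, mem_univ, true_and, K2, Fin.lt_def]
    obtain ⟨h3, h4⟩ := h
    refine ⟨?_, Or.inl ⟨?_, h4⟩⟩
    · rcases h3 with h3 | h3 <;> omega
    · rcases h3 with h3 | h3 <;> omega
  have s0 := star P hP a0 L (by simp [hL, ha0])
  have s1 := star P hP a1 L (by simp [hL, ha1])
  have hge' : (∑ w ∈ L, (nsep P a0 w : ℤ)) + (∑ w ∈ L, (nsep P a1 w : ℤ)) ≤
      (cost (K2 n) P : ℤ) := by exact_mod_cast hge
  rw [hcard] at s0 s1
  have e1 : ((n : ℤ) - 2) * (n - 2 - 1) * (n - 2 - 3) = ((n : ℤ) - 2) * (n - 3) * (n - 5) := by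
    ring
  rw [e1] at s0 s1
  linarith

lemma OCN_K2 {n : ℕ} (hn : 2 ≤ n) :
    ((n : ℤ) - 2) * (n - 3) * (n - 5) ≤ 4 * (OCN (K2 n) : ℤ) := by
  have hne : {c | ∃ P : Fin n → ℝ × ℝ, Placement P ∧ c = cost (K2 n) P}.Nonempty := by
    obtain ⟨P, hP⟩ := exists_placement n
    exact ⟨_, P, hP, rfl⟩
  obtain ⟨P, hP, h⟩ := Nat.sInf_mem hne
  have : OCN (K2 n) = cost (K2 n) P := h
  rw [this]
  exact cost_K2 hn P hP

/-- Positions in the drawing of `K_{2, n-2}`. -/
noncomputable def pos {n : ℕ} (i : Fin n) : ℝ × ℝ :=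
  if i.val < 2 then (0, 1 - 2 * (i.val : ℝ)) else ((i.val : ℝ), 0)

lemma pos_inj {n : ℕ} : Function.Injective (pos : Fin n → ℝ × ℝ) := by
  intro i j h
  unfold pos at h
  split_ifs at h with h1 h2 h2
  · simp only [Prod.mk.injEq] at h
    apply Fin.ext
    have : (i.val : ℝ) = j.val := by linarith [h.2]
    exact_mod_cast this
  · exfalso
    simp only [Prod.mk.injEq] at h
    have : (j.val : ℝ) = 0 := h.1.symm
    have : j.val = 0 := by exact_mod_cast this
    omega
  · exfalso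
    simp only [Prod.mk.injEq] at h
    have : (i.val : ℝ) = 0 := h.1
    have : i.val = 0 := by exact_mod_cast this
    omega
  · simp only [Prod.mk.injEq] at h
    apply Fin.ext
    exact_mod_cast h.1

/-- Points on the segment from a hub to a leaf. -/
lemma mem_seg {n : ℕ} {a b : Fin n} (ha : a.val < 2) (hb : 2 ≤ b.val) (z : ℝ × ℝ)
    (hz : z ∈ segment ℝ (pos a) (pos b)) :
    ∃ t : ℝ, 0 ≤ t ∧ t ≤ 1 ∧ z.1 = t * b.val ∧ z.2 = (1 - t) * (1 - 2 * (a.val : ℝ)) := by
  obtain ⟨x, y, hx, hy, hxy, rfl⟩ := hz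
  refine ⟨y, hy, by linarith, ?_, ?_⟩
  · simp [pos, ha, not_lt.mpr hb]
  · have : x = 1 - y := by linarith
    simp [pos, ha, not_lt.mpr hb, this]

lemma key {n : ℕ} {a b c d : Fin n} (ha : a.val < 2) (hb : 2 ≤ b.val) (hc : c.val < 2)
    (hd : 2 ≤ d.val) (z : ℝ × ℝ) (h1 : z ∈ segment ℝ (pos a) (pos b))
    (h2 : z ∈ segment ℝ (pos c) (pos d)) (hne : ¬ (a = c ∧ b = d)) :
    (a = c ∧ z = pos a) ∨ (b = d ∧ z = pos b) := by
  obtain ⟨t, ht0, ht1, e1, e2⟩ := mem_seg ha hb z h1
  obtain ⟨t', ht0', ht1', e1', e2'⟩ := mem_seg hc hd z h2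
  have hb' : (2 : ℝ) ≤ b.val := by exact_mod_cast hb
  have hd' : (2 : ℝ) ≤ d.val := by exact_mod_cast hd
  by_cases hac : a = c
  · subst hac
    have hbd : b ≠ d := fun h => hne ⟨rfl, h⟩
    left
    refine ⟨rfl, ?_⟩
    have hs : (1 - 2 * (a.val : ℝ)) ≠ 0 := by
      have : a.val = 0 ∨ a.val = 1 := by omega
      rcases this with h | h <;> rw [h] <;> norm_num
    have htt : t = t' := by
      have : (1 - t) * (1 - 2 * (a.val : ℝ)) = (1 - t') * (1 - 2 * (a.val : ℝ)) := by
        rw [← e2, ← e2']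
      have := mul_right_cancel₀ hs this
      linarith
    subst htt
    have ht : t = 0 := by
      by_contra h
      have h3 : t * (b.val : ℝ) = t * (d.val : ℝ) := by rw [← e1, ← e1']
      have h4 := mul_left_cancel₀ h h3
      exact hbd (Fin.ext (by exact_mod_cast h4))
    subst ht
    ext
    · rw [e1]; simp [pos, ha]
    · rw [e2]; simp [pos, ha]
  · right
    have hsum : (1 - 2 * (a.val : ℝ)) = - (1 - 2 * (c.val : ℝ)) := by
      have h1 : a.val ≠ c.val := fun h => hac (Fin.ext h)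
      have : (a.val = 0 ∧ c.val = 1) ∨ (a.val = 1 ∧ c.val = 0) := by omega
      rcases this with ⟨h, h'⟩ | ⟨h, h'⟩ <;> rw [h, h'] <;> norm_num
    have hs : (1 - 2 * (c.val : ℝ)) ≠ 0 := by
      have : c.val = 0 ∨ c.val = 1 := by omega
      rcases this with h | h <;> rw [h] <;> norm_num
    have h3 : (-(1 - t)) * (1 - 2 * (c.val : ℝ)) = (1 - t') * (1 - 2 * (c.val : ℝ)) := by
      rw [← e2', e2, hsum]; ring
    have h4 := mul_right_cancel₀ hs h3
    have ht : t = 1 := by linarith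
    have ht' : t' = 1 := by linarith
    subst ht ht'
    have hbd : b = d := by
      apply Fin.ext
      have : (1 : ℝ) * b.val = 1 * d.val := by rw [← e1, ← e1']
      have : (b.val : ℝ) = d.val := by linarith
      exact_mod_cast this
    refine ⟨hbd, ?_⟩
    ext
    · rw [e1]; simp [pos, not_lt.mpr hb]
    · rw [e2]; simp [pos, not_lt.mpr hb]

lemma planar_K2 (n : ℕ) : Planar (K2 n) := by
  refine ⟨pos, pos_inj, ?_, ?_⟩
  · -- no vertex inside an edge
    have main : ∀ a b w : Fin n, a.val < 2 → 2 ≤ b.val → pos w ∈ segment ℝ (pos a) (pos b) →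
        w = a ∨ w = b := by
      intro a b w ha hb hw
      obtain ⟨t, ht0, ht1, e1, e2⟩ := mem_seg ha hb _ hw
      have hb' : (2 : ℝ) ≤ b.val := by exact_mod_cast hb
      have hs : (1 - 2 * (a.val : ℝ)) ≠ 0 := by
        have : a.val = 0 ∨ a.val = 1 := by omega
        rcases this with h | h <;> rw [h] <;> norm_num
      by_cases hw2 : w.val < 2
      · left
        simp only [pos, hw2, if_true] at e1 e2
        have ht : t = 0 := by
          rcases mul_eq_zero.mp e1.symm with h | h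
          · exact h
          · linarith
        subst ht
        apply Fin.ext
        have : (w.val : ℝ) = a.val := by linarith
        exact_mod_cast this
      · right
        simp only [pos, hw2, if_false] at e1 e2
        have ht : t = 1 := by
          rcases mul_eq_zero.mp e2.symm with h | h
          · linarith
          · exact absurd h hs
        subst ht
        apply Fin.ext
        have : (w.val : ℝ) = b.val := by linarith
        exact_mod_cast this
    intro u v w huv hw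
    rcases huv with ⟨h1, h2⟩ | ⟨h1, h2⟩
    · exact main u v w h1 h2 hw
    · rw [segment_symm] at hw
      exact (main v u w h1 h2 hw).symm
  · intro u v x y huv hxy hne z hz hz'
    rcases huv with ⟨h1, h2⟩ | ⟨h1, h2⟩ <;> rcases hxy with ⟨h3, h4⟩ | ⟨h3, h4⟩
    · rcases key h1 h2 h3 h4 z hz hz' (by rintro ⟨rfl, rfl⟩; exact hne rfl) with
        ⟨h, h'⟩ | ⟨h, h'⟩
      · exact ⟨u, Or.inl rfl, Or.inl h, h'⟩
      · exact ⟨v, Or.inr rfl, Or.inr h, h'⟩
    · rw [segment_symm] at hz'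
      rcases key h1 h2 h3 h4 z hz hz' (by rintro ⟨rfl, rfl⟩; exact hne Sym2.eq_swap) with
        ⟨h, h'⟩ | ⟨h, h'⟩
      · exact ⟨u, Or.inl rfl, Or.inr h, h'⟩
      · exact ⟨v, Or.inr rfl, Or.inl h, h'⟩
    · rw [segment_symm] at hz
      rcases key h1 h2 h3 h4 z hz hz' (by rintro ⟨rfl, rfl⟩; exact hne Sym2.eq_swap) with
        ⟨h, h'⟩ | ⟨h, h'⟩
      · exact ⟨v, Or.inr rfl, Or.inl h, h'⟩
      · exact ⟨u, Or.inl rfl, Or.inr h, h'⟩
    · rw [segment_symm] at hz hz'
      rcases key h1 h2 h3 h4 z hz hz' (by rintro ⟨rfl, rfl⟩; exact hne rfl) with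
        ⟨h, h'⟩ | ⟨h, h'⟩
      · exact ⟨v, Or.inr rfl, Or.inr h, h'⟩
      · exact ⟨u, Or.inl rfl, Or.inl h, h'⟩

/-- The lower bound. -/
theorem lower (n : ℕ) (hn : 2 ≤ n) :
    ((n : ℝ) - 2) * (n - 3) * (n - 5) / 4 ≤ (M n : ℝ) := by
  have hfin : {c | ∃ G : SimpleGraph (Fin n), Planar G ∧ c = OCN G}.Finite := by
    apply Set.Finite.subset (Set.finite_range (fun G : SimpleGraph (Fin n) => OCN G))
    rintro c ⟨G, _, rfl⟩
    exact ⟨G, rfl⟩
  have h1 : OCN (K2 n) ≤ M n := le_csSup hfin.bddAbove ⟨K2 n, planar_K2 n, rfl⟩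
  have h2 := OCN_K2 hn
  have h3 : ((n : ℝ) - 2) * (n - 3) * (n - 5) ≤ 4 * (OCN (K2 n) : ℝ) := by exact_mod_cast h2
  have h4 : (OCN (K2 n) : ℝ) ≤ M n := by exact_mod_cast h1
  linarith

/-! ### the upper bound: random placements on a parabola -/

open Classical in
/-- The number of edges of `G`. -/
noncomputable def ecount {n : ℕ} (G : SimpleGraph (Fin n)) : ℕ :=
  ((univ : Finset (Fin n × Fin n)).filter (fun e => e.1 < e.2 ∧ G.Adj e.1 e.2)).card

/-- The placement on a parabola in the order given by `σ`. -/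
noncomputable def par {n : ℕ} (σ : Equiv.Perm (Fin n)) (i : Fin n) : ℝ × ℝ :=
  (((σ i).val : ℝ), ((σ i).val : ℝ) ^ 2)

lemma cr_par (x y z : ℝ) : cr (x, x ^ 2) (y, y ^ 2) (z, z ^ 2) = (y - x) * (z - x) * (z - y) := by
  unfold cr; ring

lemma par_placement {n : ℕ} (σ : Equiv.Perm (Fin n)) : Placement (par σ) := by
  have inj : ∀ i j : Fin n, i ≠ j → ((σ j).val : ℝ) - (σ i).val ≠ 0 := by
    intro i j hij
    rw [sub_ne_zero]
    intro h
    exact hij (σ.injective (Fin.ext (by exact_mod_cast h.symm)))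
  constructor
  · intro i j h
    by_contra hij
    unfold par at h
    simp only [Prod.mk.injEq] at h
    exact inj i j hij (by linarith [h.1])
  · intro i j k hij hik hjk
    unfold par
    rw [cr_par]
    exact mul_ne_zero (mul_ne_zero (inj i j hij) (inj i k hik)) (inj j k hjk)

open Classical in
/-- Crossing indicator on a parabola. -/
noncomputable def F {n : ℕ} (a b c d : Fin n) : ℕ :=
  if ((c.val : ℝ) - a.val) * ((c.val : ℝ) - b.val) * ((d.val : ℝ) - a.val) *
    ((d.val : ℝ) - b.val) < 0 then 1 else 0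

lemma F_sum {n : ℕ} (x y z w : Fin n) : F x y z w + F x z y w + F x w z y ≤ 1 := by
  unfold F
  set X : ℝ := (x.val : ℝ)
  set Y : ℝ := (y.val : ℝ)
  set Z : ℝ := (z.val : ℝ)
  set W : ℝ := (w.val : ℝ)
  have h13 : (Z - X) * (Z - Y) * (W - X) * (W - Y) + (Z - X) * (Z - W) * (Y - X) * (Y - W) =
      ((X - Z) * (Y - W)) ^ 2 := by ring
  have h12 : (Z - X) * (Z - Y) * (W - X) * (W - Y) + (Y - X) * (Y - Z) * (W - X) * (W - Z) =
      ((X - W) * (Y - Z)) ^ 2 := by ring
  have h23 : (Y - X) * (Y - Z) * (W - X) * (W - Z) + (Z - X) * (Z - W) * (Y - X) * (Y - W) =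
      ((X - Y) * (Z - W)) ^ 2 := by ring
  have s1 := sq_nonneg ((X - Z) * (Y - W))
  have s2 := sq_nonneg ((X - W) * (Y - Z))
  have s3 := sq_nonneg ((X - Y) * (Z - W))
  split_ifs with h1 h2 h3 h3 h2 h3 h3
  all_goals first
    | omega
    | (exfalso; linarith)

lemma F_symm {n : ℕ} (x y z w : Fin n) : F x y z w = F x y w z := by
  unfold F
  have : ((z.val : ℝ) - x.val) * ((z.val : ℝ) - y.val) * ((w.val : ℝ) - x.val) *
    ((w.val : ℝ) - y.val) = ((w.val : ℝ) - x.val) * ((w.val : ℝ) - y.val) *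
    ((z.val : ℝ) - x.val) * ((z.val : ℝ) - y.val) := by ring
  rw [this]

lemma sumF {n : ℕ} (u v p q : Fin n) (huv : u ≠ v) (hup : u ≠ p) (huq : u ≠ q) (hvp : v ≠ p)
    (hvq : v ≠ q) (hpq : p ≠ q) :
    3 * ∑ σ : Equiv.Perm (Fin n), F (σ u) (σ v) (σ p) (σ q) ≤
      Fintype.card (Equiv.Perm (Fin n)) := by
  have e1 : ∑ σ : Equiv.Perm (Fin n), F (σ u) (σ v) (σ p) (σ q) =
      ∑ σ : Equiv.Perm (Fin n), F (σ u) (σ p) (σ v) (σ q) := by
    rw [← Equiv.sum_comp (Equiv.mulRight (Equiv.swap v p))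
      (fun σ : Equiv.Perm (Fin n) => F (σ u) (σ v) (σ p) (σ q))]
    apply Finset.sum_congr rfl
    intro σ _
    simp only [Equiv.coe_mulRight, Equiv.Perm.mul_apply, Equiv.swap_apply_left,
      Equiv.swap_apply_right]
    rw [Equiv.swap_apply_of_ne_of_ne huv hup, Equiv.swap_apply_of_ne_of_ne hvq.symm hpq.symm]
  have e2 : ∑ σ : Equiv.Perm (Fin n), F (σ u) (σ v) (σ p) (σ q) =
      ∑ σ : Equiv.Perm (Fin n), F (σ u) (σ q) (σ p) (σ v) := by
    rw [← Equiv.sum_comp (Equiv.mulRight (Equiv.swap v q))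
      (fun σ : Equiv.Perm (Fin n) => F (σ u) (σ v) (σ p) (σ q))]
    apply Finset.sum_congr rfl
    intro σ _
    simp only [Equiv.coe_mulRight, Equiv.Perm.mul_apply, Equiv.swap_apply_left,
      Equiv.swap_apply_right]
    rw [Equiv.swap_apply_of_ne_of_ne huv huq, Equiv.swap_apply_of_ne_of_ne hvp.symm hpq]
  have e3 : ∑ σ : Equiv.Perm (Fin n), (F (σ u) (σ v) (σ p) (σ q) + F (σ u) (σ p) (σ v) (σ q) +
      F (σ u) (σ q) (σ p) (σ v)) ≤ ∑ _σ : Equiv.Perm (Fin n), 1 :=
    Finset.sum_le_sum (fun σ _ => F_sum _ _ _ _)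
  rw [Finset.sum_add_distrib, Finset.sum_add_distrib, ← e1, ← e2] at e3
  simp only [sum_const, smul_eq_mul, mul_one, card_univ] at e3
  omega

lemma nsep_par {n : ℕ} (σ : Equiv.Perm (Fin n)) (p q : Fin n) :
    2 * nsep (par σ) p q ≤ ∑ e ∈ (univ.filter (fun x : Fin n => x ≠ p ∧ x ≠ q)).offDiag,
      F (σ e.1) (σ e.2) (σ p) (σ q) := by
  classical
  set H : Finset (Fin n) := univ.filter (fun x => x ≠ p ∧ x ≠ q) with hH
  set P := par σ with hPdef
  set S : Fin n → Fin n → Prop := fun x y => cr (P x) (P y) (P p) * cr (P x) (P y) (P q) < 0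
    with hS
  have hsym : ∀ u v, S u v ↔ S v u := by
    intro u v
    simp only [hS]
    rw [cr_swap (P v) (P u) (P p), cr_swap (P v) (P u) (P q)]
    simp
  have t1 := tour H (fun x y => x < y) S (by
    intro u _ v _ huv
    constructor
    · intro h; exact not_lt.mpr h.le
    · intro h; exact lt_of_le_of_ne (not_lt.mp h) huv) hsym
  have e1 : nsep P p q = (H.offDiag.filter fun e => e.1 < e.2 ∧ S e.1 e.2).card := by
    unfold nsep
    congr 1
    ext e
    simp only [hH, mem_filter, mem_univ, true_and, mem_offDiag, hS]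
    constructor
    · rintro ⟨h1, h2, h3, h4, h5, h6⟩
      exact ⟨⟨⟨h2, h3⟩, ⟨h4, h5⟩, h1.ne⟩, h1, h6⟩
    · rintro ⟨⟨⟨h2, h3⟩, ⟨h4, h5⟩, _⟩, h1, h6⟩
      exact ⟨h1, h2, h3, h4, h5, h6⟩
  rw [e1, t1, Finset.card_filter]
  apply Finset.sum_le_sum
  intro e _
  unfold F
  split_ifs with h1 h2 h2
  · exact le_refl _
  · exfalso
    apply h2
    simp only [hS, hPdef, par, cr_par] at h1
    set X : ℝ := ((σ e.1).val : ℝ)
    set Y : ℝ := ((σ e.2).val : ℝ)
    set Z : ℝ := ((σ p).val : ℝ)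
    set W : ℝ := ((σ q).val : ℝ)
    have h3 : (Y - X) * (Z - X) * (Z - Y) * ((Y - X) * (W - X) * (W - Y)) =
        (Y - X) ^ 2 * ((Z - X) * (Z - Y) * (W - X) * (W - Y)) := by ring
    rw [h3] at h1
    by_contra h4
    push Not at h4
    have := mul_nonneg (sq_nonneg (Y - X)) h4
    linarith
  · exact Nat.zero_le _
  · exact le_refl _

/-- The upper bound. -/
theorem upper {n : ℕ} (G : SimpleGraph (Fin n)) :
    6 * OCN G ≤ ecount G * ((n - 2) * (n - 3)) := by
  classical
  set E : Finset (Fin n × Fin n) := univ.filter (fun e => e.1 < e.2 ∧ G.Adj e.1 e.2) with hE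
  have hcost : ∀ P, cost G P = ∑ e ∈ E, nsep P e.1 e.2 := fun P => rfl
  have hec : ecount G = E.card := rfl
  have hedge : ∀ e ∈ E, ∑ σ : Equiv.Perm (Fin n), 6 * nsep (par σ) e.1 e.2 ≤
      ((n - 2) * (n - 3)) * Fintype.card (Equiv.Perm (Fin n)) := by
    rintro ⟨p, q⟩ he
    simp only [hE, mem_filter, mem_univ, true_and] at he
    have hpq : p ≠ q := he.1.ne
    set H : Finset (Fin n) := univ.filter (fun x => x ≠ p ∧ x ≠ q) with hH
    have hHc : H.card = n - 2 := by
      have h1 : H = univ \ {p, q} := by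
        ext x
        simp only [hH, mem_filter, mem_univ, true_and, mem_sdiff, mem_insert, mem_singleton]
        tauto
      rw [h1, Finset.card_sdiff_of_subset (Finset.subset_univ _), Finset.card_univ,
        Fintype.card_fin, Finset.card_pair hpq]
    have hoff : H.offDiag.card = (n - 2) * (n - 3) := by
      rw [Finset.offDiag_card, hHc]
      rcases Nat.lt_or_ge n 3 with h | h
      · interval_cases n <;> rfl
      · obtain ⟨k, rfl⟩ := Nat.exists_eq_add_of_le h
        have : 3 + k - 2 = k + 1 := by omega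
        have h' : 3 + k - 3 = k := by omega
        rw [this, h']
        have : (k + 1) * (k + 1) = (k + 1) * k + (k + 1) := by ring
        omega
    calc ∑ σ : Equiv.Perm (Fin n), 6 * nsep (par σ) p q
        ≤ ∑ σ : Equiv.Perm (Fin n), 3 * ∑ e ∈ H.offDiag, F (σ e.1) (σ e.2) (σ p) (σ q) := by
          apply Finset.sum_le_sum
          intro σ _
          have h9 := nsep_par σ p q
          rw [← hH] at h9
          linarith
      _ = ∑ e ∈ H.offDiag, 3 * ∑ σ : Equiv.Perm (Fin n), F (σ e.1) (σ e.2) (σ p) (σ q) := by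
          rw [← Finset.mul_sum, Finset.sum_comm, Finset.mul_sum]
      _ ≤ ∑ _e ∈ H.offDiag, Fintype.card (Equiv.Perm (Fin n)) := by
          apply Finset.sum_le_sum
          rintro ⟨u, v⟩ huv
          simp only [hH, mem_offDiag, mem_filter, mem_univ, true_and] at huv
          obtain ⟨⟨h1, h2⟩, ⟨h3, h4⟩, h5⟩ := huv
          exact sumF u v p q h5 h1 h2 h3 h4 hpq
      _ = ((n - 2) * (n - 3)) * Fintype.card (Equiv.Perm (Fin n)) := by
          rw [Finset.sum_const, hoff, smul_eq_mul]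
  have htot : ∑ σ : Equiv.Perm (Fin n), 6 * cost G (par σ) ≤
      ∑ _σ : Equiv.Perm (Fin n), E.card * ((n - 2) * (n - 3)) := by
    calc ∑ σ : Equiv.Perm (Fin n), 6 * cost G (par σ)
        = ∑ e ∈ E, ∑ σ : Equiv.Perm (Fin n), 6 * nsep (par σ) e.1 e.2 := by
          rw [Finset.sum_comm]
          apply Finset.sum_congr rfl
          intro σ _
          rw [hcost, Finset.mul_sum]
      _ ≤ ∑ _e ∈ E, ((n - 2) * (n - 3)) * Fintype.card (Equiv.Perm (Fin n)) :=
          Finset.sum_le_sum hedge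
      _ = ∑ _σ : Equiv.Perm (Fin n), E.card * ((n - 2) * (n - 3)) := by
          rw [Finset.sum_const, Finset.sum_const, Finset.card_univ, smul_eq_mul, smul_eq_mul]
          ring
  obtain ⟨σ, _, hσ⟩ := Finset.exists_le_of_sum_le (Finset.univ_nonempty) htot
  have h1 : OCN G ≤ cost G (par σ) := Nat.sInf_le ⟨par σ, par_placement σ, rfl⟩
  rw [hec]
  omega

/-! ### the number of edges of a straight-line plane graph -/

lemma exists_idx {V : Type} [Fintype V] (p : V → ℝ × ℝ) (hp : Function.Injective p) :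
    ∃ idx : V → ℕ, (∀ v, idx v < Fintype.card V) ∧ Function.Injective idx ∧
      (∀ v w, (p v).1 < (p w).1 → idx v < idx w) ∧
      (∀ m < Fintype.card V, ∃ v, idx v = m) := by
  classical
  letI : LinearOrder V := LinearOrder.lift' (fun v => toLex (p v))
    (fun a b h => hp (toLex.injective h))
  let σ := monoEquivOfFin V (rfl : Fintype.card V = Fintype.card V)
  refine ⟨fun v => (σ.symm v : ℕ), fun v => (σ.symm v).2, ?_, ?_, ?_⟩
  · intro a b h
    exact σ.symm.injective (Fin.ext h)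
  · intro v w h
    have h1 : v < w := by
      change toLex (p v) < toLex (p w)
      rw [Prod.Lex.toLex_lt_toLex]
      left; exact h
    exact σ.symm.strictMono h1
  · intro m hm
    refine ⟨σ ⟨m, hm⟩, ?_⟩
    change ((σ.symm (σ ⟨m, hm⟩) : Fin _) : ℕ) = m
    rw [OrderIso.symm_apply_apply]

lemma shear {n : ℕ} (f : Fin n → ℝ × ℝ) (hf : Function.Injective f) :
    ∃ s : ℝ, ∀ i j, i ≠ j → (f i).1 + s * (f i).2 ≠ (f j).1 + s * (f j).2 := by
  have hfin : (⋃ e : {e : Fin n × Fin n // e.1 ≠ e.2},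
      {s : ℝ | (f e.1.1).1 + s * (f e.1.1).2 = (f e.1.2).1 + s * (f e.1.2).2}).Finite := by
    apply Set.finite_iUnion
    rintro ⟨⟨i, j⟩, hij⟩
    apply Set.Subsingleton.finite
    intro s hs s' hs'
    simp only [Set.mem_ofPred_eq] at hs hs'
    by_contra hne
    apply hij
    apply hf
    have h1 : (s - s') * ((f i).2 - (f j).2) = 0 := by linarith
    rcases mul_eq_zero.mp h1 with h | h
    · exact absurd (by linarith) hne
    · have h2 : (f i).2 = (f j).2 := by linarith
      rw [h2] at hs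
      exact Prod.ext (by linarith) h2
  obtain ⟨s, hs⟩ := hfin.infinite_compl.nonempty
  refine ⟨s, ?_⟩
  intro i j hij h
  apply hs
  rw [Set.mem_iUnion]
  exact ⟨⟨(i, j), hij⟩, h⟩

/-- Height of the edge `pq` at abscissa `x`. -/
noncomputable def ht {n : ℕ} (X Y : Fin n → ℝ) (p q : Fin n) (x : ℝ) : ℝ :=
  Y p + (Y q - Y p) * ((x - X p) / (X q - X p))

open Classical in
/-- The word of an edge. -/
noncomputable def wd {n : ℕ} (X Y : Fin n → ℝ) (idx : Fin n → ℕ) (e : Fin n × Fin n) : HM.Ed :=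
  (idx e.1, idx e.2, (Finset.Ioo (idx e.1) (idx e.2)).filter
    (fun u => ∃ v, idx v = u ∧ Y v < ht X Y e.1 e.2 (X v)))

lemma ht_left {n : ℕ} (X Y : Fin n → ℝ) (p q : Fin n) : ht X Y p q (X p) = Y p := by
  unfold ht; simp

lemma ht_right {n : ℕ} (X Y : Fin n → ℝ) (p q : Fin n) (h : X p < X q) :
    ht X Y p q (X q) = Y q := by
  unfold ht
  rw [div_self (by linarith)]; ring

/-- A point of the segment at abscissa `x`. -/
lemma ht_seg {n : ℕ} (f : Fin n → ℝ × ℝ) (s : ℝ) (X Y : Fin n → ℝ)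
    (hX : ∀ i, X i = (f i).1 + s * (f i).2) (hY : ∀ i, Y i = (f i).2) (p q : Fin n)
    (h : X p < X q) (x : ℝ) (h1 : X p ≤ x) (h2 : x ≤ X q) :
    (x - s * ht X Y p q x, ht X Y p q x) ∈ segment ℝ (f p) (f q) := by
  have hpos : 0 < X q - X p := by linarith
  set t := (x - X p) / (X q - X p) with ht'
  have ht0 : 0 ≤ t := div_nonneg (by linarith) hpos.le
  have ht1 : t ≤ 1 := by rw [ht', div_le_one hpos]; linarith
  have hx : x = X p + t * (X q - X p) := by
    rw [ht', div_mul_cancel₀ _ hpos.ne']; ring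
  refine ⟨1 - t, t, by linarith, ht0, by ring, ?_⟩
  have hh : ht X Y p q x = Y p + (Y q - Y p) * t := rfl
  ext
  · simp only [Prod.fst_add, Prod.smul_fst, smul_eq_mul]
    rw [hh]
    have key : (1 - t) * (f p).1 + t * (f q).1 =
        X p + t * (X q - X p) - s * (Y p + (Y q - Y p) * t) := by
      rw [hX p, hX q, hY p, hY q]; ring
    rw [key, ← hx]
  · simp only [Prod.snd_add, Prod.smul_snd, smul_eq_mul]
    rw [hh, hY p, hY q]; ring

open Classical in
theorem euler {n : ℕ} (hn : 2 ≤ n) (G : SimpleGraph (Fin n)) (hG : Planar G) :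
    ecount G ≤ 3 * n - 5 := by
  obtain ⟨f, hf, hv, hc⟩ := hG
  obtain ⟨s, hs⟩ := shear f hf
  set X : Fin n → ℝ := fun i => (f i).1 + s * (f i).2 with hXd
  set Y : Fin n → ℝ := fun i => (f i).2 with hYd
  have hX : ∀ i, X i = (f i).1 + s * (f i).2 := fun _ => rfl
  have hY : ∀ i, Y i = (f i).2 := fun _ => rfl
  have hXinj : ∀ i j, i ≠ j → X i ≠ X j := hs
  obtain ⟨idx, hidx1, hidx2, hidx3, hidx4⟩ := exists_idx (fun i => (X i, Y i)) (by
    intro i j h
    by_contra hij
    simp only [Prod.mk.injEq] at h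
    exact hXinj i j hij h.1)
  have hidx3' : ∀ v w, X v < X w → idx v < idx w := hidx3
  rw [Fintype.card_fin] at hidx4
  have hidx1' : ∀ v, idx v < n := by
    intro v
    have := hidx1 v
    rwa [Fintype.card_fin] at this
  have hle : ∀ v w, idx v ≤ idx w → X v ≤ X w := by
    intro v w h
    by_contra h'
    push Not at h'
    have := hidx3' w v h'
    omega
  have hlt : ∀ v w, idx v < idx w → X v < X w := by
    intro v w h
    have h1 := hle v w h.le
    refine lt_of_le_of_ne h1 (hXinj v w ?_)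
    rintro rfl
    exact lt_irrefl _ h
  set E' : Finset (Fin n × Fin n) := univ.filter (fun e => X e.1 < X e.2 ∧ G.Adj e.1 e.2) with hE'
  have hcardE : ecount G = E'.card := by
    have t1 := tour (univ : Finset (Fin n)) (fun x y => x < y) (fun x y => G.Adj x y) (by
      intro u _ v _ huv
      constructor
      · intro h; exact not_lt.mpr h.le
      · intro h; exact lt_of_le_of_ne (not_lt.mp h) huv) (fun u v => G.adj_comm u v)
    have t2 := tour (univ : Finset (Fin n)) (fun x y => X x < X y) (fun x y => G.Adj x y) (by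
      intro u _ v _ huv
      constructor
      · intro h; exact not_lt.mpr h.le
      · intro h; exact lt_of_le_of_ne (not_lt.mp h) (hXinj u v huv)) (fun u v => G.adj_comm u v)
    have e1 : (univ : Finset (Fin n × Fin n)).filter (fun e => e.1 < e.2 ∧ G.Adj e.1 e.2) =
        (univ : Finset (Fin n)).offDiag.filter (fun e => e.1 < e.2 ∧ G.Adj e.1 e.2) := by
      ext e
      simp only [mem_filter, mem_univ, true_and, mem_offDiag]
      constructor
      · intro h; exact ⟨h.1.ne, h⟩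
      · intro h; exact h.2
    have e2 : E' =
        (univ : Finset (Fin n)).offDiag.filter (fun e => X e.1 < X e.2 ∧ G.Adj e.1 e.2) := by
      ext e
      simp only [hE', mem_filter, mem_univ, true_and, mem_offDiag]
      constructor
      · intro h; exact ⟨h.2.ne, h⟩
      · intro h; exact h.2
    have e3 : ecount G =
        ((univ : Finset (Fin n)).offDiag.filter (fun e => e.1 < e.2 ∧ G.Adj e.1 e.2)).card := by
      unfold ecount; rw [e1]
    rw [e3, e2]
    omega
  have hinj : Set.InjOn (wd X Y idx) (E' : Set (Fin n × Fin n)) := by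
    rintro ⟨a, b⟩ _ ⟨c, d⟩ _ h
    simp only [wd, Prod.mk.injEq] at h
    rw [hidx2 h.1, hidx2 h.2.1]
  have hcardF : (E'.image (wd X Y idx)).card = E'.card := Finset.card_image_of_injOn hinj
  -- signs
  have sg : ∀ p q w : Fin n, X p < X q → G.Adj p q → idx p ≤ idx w → idx w ≤ idx q →
      (HM.vl (wd X Y idx (p, q)) (idx w) = 0 ∧ ht X Y p q (X w) = Y w) ∨
      (HM.vl (wd X Y idx (p, q)) (idx w) = 1 ∧ Y w < ht X Y p q (X w)) ∨
      (HM.vl (wd X Y idx (p, q)) (idx w) = -1 ∧ ht X Y p q (X w) < Y w) := by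
    intro p q w hpq hadj h1 h2
    by_cases hwp : w = p
    · subst hwp
      left
      refine ⟨?_, ht_left X Y w q⟩
      unfold HM.vl wd
      simp
    by_cases hwq : w = q
    · subst hwq
      left
      refine ⟨?_, ht_right X Y p w hpq⟩
      unfold HM.vl wd
      simp
    have hne1 : idx w ≠ idx p := fun h => hwp (hidx2 h)
    have hne2 : idx w ≠ idx q := fun h => hwq (hidx2 h)
    have hmem : idx w ∈ Finset.Ioo (idx p) (idx q) := by
      rw [Finset.mem_Ioo]; omega
    have hnoteq : ht X Y p q (X w) ≠ Y w := by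
      intro h
      have hseg := ht_seg f s X Y hX hY p q hpq (X w) (hle _ _ h1) (hle _ _ h2)
      rw [h] at hseg
      have : (X w - s * Y w, Y w) = f w := by
        ext
        · simp only [hX, hY]; ring
        · simp only [hY]
      rw [this] at hseg
      rcases hv p q w hadj hseg with h' | h'
      · exact hwp h'
      · exact hwq h'
    by_cases hh : Y w < ht X Y p q (X w)
    · right; left
      refine ⟨?_, hh⟩
      have hm : idx w ∈ (wd X Y idx (p, q)).2.2 := by
        simp only [wd, mem_filter]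
        exact ⟨hmem, w, rfl, hh⟩
      unfold HM.vl
      rw [if_neg (by simp only [wd]; tauto), if_pos hm]
    · right; right
      refine ⟨?_, lt_of_le_of_ne (not_lt.mp hh) hnoteq⟩
      have hm : idx w ∉ (wd X Y idx (p, q)).2.2 := by
        simp only [wd, mem_filter]
        rintro ⟨_, w', hw', h'⟩
        rw [hidx2 hw'] at h'
        exact hh h'
      unfold HM.vl
      rw [if_neg (by simp only [wd]; tauto), if_neg hm]
  have sg' : ∀ p q p' q' w : Fin n, X p < X q → G.Adj p q → idx p ≤ idx w → idx w ≤ idx q →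
      X p' < X q' → G.Adj p' q' → idx p' ≤ idx w → idx w ≤ idx q' →
      HM.vl (wd X Y idx (p, q)) (idx w) < HM.vl (wd X Y idx (p', q')) (idx w) →
      ht X Y p q (X w) < ht X Y p' q' (X w) := by
    intro p q p' q' w a1 a2 a3 a4 b1 b2 b3 b4 hlt'
    rcases sg p q w a1 a2 a3 a4 with ⟨c1, c2⟩ | ⟨c1, c2⟩ | ⟨c1, c2⟩ <;>
    rcases sg p' q' w b1 b2 b3 b4 with ⟨d1, d2⟩ | ⟨d1, d2⟩ | ⟨d1, d2⟩ <;>
    rw [c1, d1] at hlt' <;>
    first
      | (exfalso; revert hlt'; norm_num; done)
      | linarith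
  have hVd : HM.Vd (n - 1) (E'.image (wd X Y idx)) := by
    intro e he
    rw [Finset.mem_image] at he
    obtain ⟨⟨p, q⟩, hpq, rfl⟩ := he
    simp only [hE', mem_filter, mem_univ, true_and] at hpq
    refine ⟨hidx3' _ _ hpq.1, ?_, ?_⟩
    · have := hidx1' q
      show idx q ≤ n - 1
      omega
    · exact Finset.filter_subset _ _
  have hGood : HM.Good 1 (n - 1) (E'.image (wd X Y idx)) := by
    intro e he e' he' hne hP
    rw [Finset.mem_image] at he he'
    obtain ⟨⟨p, q⟩, hpq, rfl⟩ := he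
    obtain ⟨⟨p', q'⟩, hpq', rfl⟩ := he'
    simp only [hE', mem_filter, mem_univ, true_and] at hpq hpq'
    obtain ⟨u, hu, hR1, hR2, hl, v, hvu, hR3, hR4, hl'⟩ := hP
    obtain ⟨w, rfl⟩ := hidx4 u (by omega)
    obtain ⟨w', rfl⟩ := hidx4 v (by omega)
    have r1 : idx p ≤ idx w ∧ idx w ≤ idx q := hR1
    have r2 : idx p' ≤ idx w ∧ idx w ≤ idx q' := hR2
    have r3 : idx p' ≤ idx w' ∧ idx w' ≤ idx q' := hR3
    have r4 : idx p ≤ idx w' ∧ idx w' ≤ idx q := hR4
    have k1 := sg' p q p' q' w hpq.1 hpq.2 r1.1 r1.2 hpq'.1 hpq'.2 r2.1 r2.2 hl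
    have k2 := sg' p' q' p q w' hpq'.1 hpq'.2 r3.1 r3.2 hpq.1 hpq.2 r4.1 r4.2 hl'
    have hww : X w' < X w := hlt _ _ hvu
    -- the crossing
    set D : ℝ → ℝ := fun x => ht X Y p q x - ht X Y p' q' x with hD
    have hcont : ContinuousOn D (Set.Icc (X w') (X w)) := by
      apply Continuous.continuousOn
      simp only [hD]
      unfold ht
      fun_prop
    have hiv := intermediate_value_Ioo' hww.le hcont
    have h0 : (0 : ℝ) ∈ Set.Ioo (D (X w)) (D (X w')) := by
      constructor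
      · simp only [hD]; linarith
      · simp only [hD]; linarith
    obtain ⟨x, hx, hx0⟩ := hiv h0
    have hx0' : ht X Y p q x = ht X Y p' q' x := by
      simp only [hD] at hx0; linarith
    have b1 := hle _ _ r4.1
    have b2 := hle _ _ r1.2
    have b3 := hle _ _ r3.1
    have b4 := hle _ _ r2.2
    have hx1 : X w' < x := hx.1
    have hx2 : x < X w := hx.2
    have m1 := ht_seg f s X Y hX hY p q hpq.1 x (by linarith) (by linarith)
    have m2 := ht_seg f s X Y hX hY p' q' hpq'.1 x (by linarith) (by linarith)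
    rw [← hx0'] at m2
    have hs2 : s(p, q) ≠ s(p', q') := by
      intro h
      rw [Sym2.eq_iff] at h
      rcases h with ⟨h1, h2⟩ | ⟨h1, h2⟩
      · subst h1 h2; exact hne rfl
      · subst h1 h2
        linarith [hpq.1, hpq'.1]
    obtain ⟨y, hy1, hy2, hy3⟩ := hc p q p' q' hpq.2 hpq'.2 hs2 _ m1 m2
    have hxy : X y = x := by
      rw [hX, ← hy3]
      ring
    rcases hy1 with rfl | rfl
    · linarith
    · linarith
  have hb := HM.H_bound (n - 1) 0 _ hVd hGood
  obtain ⟨k, rfl⟩ := Nat.exists_eq_add_of_le hn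
  have e1 : 2 + k - 1 = k + 1 := by omega
  rw [e1, HM.Hb_eq, hcardF, ← hcardE] at hb
  simp only [Finset.range_zero, Finset.sum_empty] at hb
  omega

theorem upperM (n : ℕ) (hn : 2 ≤ n) : 6 * M n ≤ (3 * n - 5) * ((n - 2) * (n - 3)) := by
  have hfin : {c | ∃ G : SimpleGraph (Fin n), Planar G ∧ c = OCN G}.Finite := by
    apply Set.Finite.subset (Set.finite_range (fun G : SimpleGraph (Fin n) => OCN G))
    rintro c ⟨G, _, rfl⟩
    exact ⟨G, rfl⟩
  have hne : {c | ∃ G : SimpleGraph (Fin n), Planar G ∧ c = OCN G}.Nonempty :=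
    ⟨_, K2 n, planar_K2 n, rfl⟩
  obtain ⟨G, hG, h⟩ := Nat.sSup_mem hne hfin.bddAbove
  have h1 : M n = OCN G := h
  rw [h1]
  exact (upper G).trans (Nat.mul_le_mul_right _ (euler hn G hG))

/-- **Main result.** -/
theorem result :
    (∀ n : ℕ, 2 ≤ n → ((n : ℝ) - 2) * (n - 3) * (n - 5) / 4 ≤ (M n : ℝ) ∧
      6 * M n ≤ (3 * n - 5) * ((n - 2) * (n - 3))) ∧
    (∀ (n : ℕ), 2 ≤ n → ((n : ℝ) - 2) * (n - 3) * (n - 5) / 4 ≤ (OCN (K2 n) : ℝ)) ∧
    (∀ (n : ℕ) (G : SimpleGraph (Fin n)), 6 * OCN G ≤ ecount G * ((n - 2) * (n - 3))) := by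
  refine ⟨fun n hn => ⟨lower n hn, upperM n hn⟩, ?_, fun n G => upper G⟩
  intro n hn
  have h2 := OCN_K2 hn
  have h3 : ((n : ℝ) - 2) * (n - 3) * (n - 5) ≤ 4 * (OCN (K2 n) : ℝ) := by exact_mod_cast h2
  linarith

end Pool.Agent.Results.MP_00ece3_co.CubicGrowth
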